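import Mathlib

/-! Dimension count of Golod and Shafarevich in a graded algebra with at most one relation in
each degree. -/

namespace Pool.Agent.MP_4977d9_al

open Submodule

section GSdim

variable {F T : Type*} [Field F] [Ring T] [Algebra F T]

/-- the degree-`n` part of the ideal generated by relations `r m` of degree `m` (`m ≥ 2`) -/
noncomputable def J (V : Submodule F T) (r : ℕ → T) : ℕ → Submodule F T
  | 0 => ⊥
  | n+1 => J V r n * V ⊔ ⨆ i : Fin n, V ^ (i : ℕ) * span F {r (n + 1 - i)}

variable {V : Submodule F T} {r : ℕ → T}

theorem J_mul_le (n : ℕ) : J V r n * V ≤ J V r (n+1) := by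
  rw [J]; exact le_sup_left

theorem rel_le (n : ℕ) (i : ℕ) (hi : i < n) :
    V ^ i * span F {r (n + 1 - i)} ≤ J V r (n+1) := by
  rw [J]
  refine le_trans ?_ le_sup_right
  exact le_iSup (fun i : Fin n => V ^ (i : ℕ) * span F {r (n + 1 - i)}) ⟨i, hi⟩

theorem rel_mem (n : ℕ) (hn : 2 ≤ n) : r n ∈ J V r n := by
  obtain ⟨k, rfl⟩ : ∃ k, n = k + 1 := ⟨n - 1, by omega⟩
  have h := rel_le (V := V) (r := r) k 0 (by omega)
  apply h
  simp only [pow_zero, one_mul, Nat.sub_zero]
  exact mem_span_singleton_self _

theorem J_le (hr : ∀ m, r m ∈ V ^ m) (n : ℕ) : J V r n ≤ V ^ n := by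
  induction n with
  | zero => rw [J]; exact bot_le
  | succ n ih =>
    rw [J]
    refine sup_le ?_ (iSup_le ?_)
    · rw [pow_succ]; exact mul_le_mul' ih le_rfl
    · intro i
      have hi := i.2
      have h : V ^ (n+1) = V ^ (i : ℕ) * V ^ (n + 1 - i) := by
        rw [← pow_add]; congr 1; omega
      rw [h]
      refine mul_le_mul' le_rfl ?_
      rw [span_singleton_le_iff_mem]
      exact hr _

theorem mul_J_le (n : ℕ) : V * J V r n ≤ J V r (n+1) := by
  induction n with
  | zero => rw [J]; simp
  | succ n ih =>
    rw [J, Submodule.mul_sup, Submodule.mul_iSup]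
    refine sup_le ?_ (iSup_le ?_)
    · rw [← mul_assoc]
      exact le_trans (mul_le_mul' ih le_rfl) (J_mul_le _)
    · intro i
      rw [← mul_assoc, ← pow_succ']
      have h := rel_le (V := V) (r := r) (n+1) (i+1) (by have := i.2; omega)
      have h2 : n + 1 + 1 - ((i : ℕ) + 1) = n + 1 - i := by omega
      rw [h2] at h
      exact h

theorem J_mul_pow_le (n k : ℕ) : J V r n * V ^ k ≤ J V r (n + k) := by
  induction k with
  | zero => simp
  | succ k ih =>
    rw [pow_succ, ← mul_assoc]
    exact le_trans (mul_le_mul' ih le_rfl) (J_mul_le _)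

theorem pow_mul_J_le (n k : ℕ) : V ^ k * J V r n ≤ J V r (n + k) := by
  induction k with
  | zero => simp
  | succ k ih =>
    rw [pow_succ', mul_assoc]
    exact le_trans (mul_le_mul' le_rfl ih) (mul_J_le _)

theorem finrank_mul_singleton_le (P : Submodule F T) [FiniteDimensional F P] (x : T) :
    Module.finrank F (P * span F {x} : Submodule F T) ≤ Module.finrank F P := by
  have h : P * span F {x} = P.map (LinearMap.mulRight F x) := by
    apply le_antisymm
    · rw [Submodule.mul_le]
      intro m hm n hn
      rw [mem_span_singleton] at hn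
      obtain ⟨c, rfl⟩ := hn
      refine ⟨c • m, P.smul_mem _ hm, ?_⟩
      simp [LinearMap.mulRight_apply]
    · rintro _ ⟨m, hm, rfl⟩
      exact Submodule.mul_mem_mul hm (mem_span_singleton_self x)
  rw [h]
  exact Submodule.finrank_map_le _ _

instance finiteDimensional_mul_singleton (P : Submodule F T) [FiniteDimensional F P] (x : T) :
    FiniteDimensional F (P * span F {x} : Submodule F T) := by
  have : (P * span F {x} : Submodule F T).FG := by
    apply Submodule.FG.mul
    · exact (Submodule.fg_iff_finiteDimensional _).2 inferInstance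
    · exact Submodule.fg_span_singleton x
  exact (Submodule.fg_iff_finiteDimensional _).1 this

theorem finrank_mul_span3_le (P : Submodule F T) [FiniteDimensional F P] (x y z : T) :
    Module.finrank F (P * span F {x, y, z} : Submodule F T) ≤ 3 * Module.finrank F P := by
  have h : P * span F {x, y, z} = P * span F {x} ⊔ (P * span F {y} ⊔ P * span F {z}) := by
    rw [span_insert, span_insert, Submodule.mul_sup, Submodule.mul_sup]
  rw [h]
  have h1 := finrank_mul_singleton_le P x
  have h2 := finrank_mul_singleton_le P y
  have h3 := finrank_mul_singleton_le P z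
  have h4 := Submodule.finrank_add_le_finrank_add_finrank (P * span F {x})
    (P * span F {y} ⊔ P * span F {z})
  have h5 := Submodule.finrank_add_le_finrank_add_finrank (P * span F {y}) (P * span F {z})
  omega

/-- main dimension estimate -/
theorem finrank_J (x y z : T) (hV : V = span F {x, y, z}) (hr : ∀ m, r m ∈ V ^ m)
    (hdim : ∀ n, Module.finrank F (V ^ n : Submodule F T) = 3 ^ n) (n : ℕ) :
    (∑ j ∈ Finset.range n, (Module.finrank F (V ^ j : Submodule F T) -
      Module.finrank F (J V r j) : ℤ)) + 1 ≤
      (Module.finrank F (V ^ n : Submodule F T) - Module.finrank F (J V r n) : ℤ) := by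
  have hVfg : V.FG := by rw [hV]; exact Submodule.fg_span (by simp)
  have hVfd : ∀ n, FiniteDimensional F (V ^ n : Submodule F T) := fun n =>
    (Submodule.fg_iff_finiteDimensional _).1 (hVfg.pow n)
  have hJfd : ∀ n, FiniteDimensional F (J V r n) := fun n => by
    have := hVfd n
    exact Submodule.finiteDimensional_of_le (J_le hr n)
  -- complements
  have hB : ∀ i, ∃ B : Submodule F T, V ^ i = J V r i ⊔ B ∧ B ≤ V ^ i ∧
      Module.finrank F B + Module.finrank F (J V r i) = Module.finrank F (V ^ i : Submodule F T) := by
    intro i
    have := hVfd i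
    have := hJfd i
    obtain ⟨C, hC⟩ := Submodule.exists_isCompl ((J V r i).submoduleOf (V ^ i))
    refine ⟨C.map (V ^ i).subtype, ?_, ?_, ?_⟩
    · have h1 := hC.sup_eq_top
      have h2 := congrArg (Submodule.map (V ^ i).subtype) h1
      rw [Submodule.map_sup, Submodule.map_top, Submodule.range_subtype] at h2
      have h6 : Submodule.map (V ^ i).subtype ((J V r i).submoduleOf (V ^ i)) = J V r i := by
        rw [Submodule.submoduleOf, Submodule.map_comap_subtype]
        exact (inf_eq_right.2 (J_le hr i))
      rw [h6] at h2
      exact h2.symm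
    · exact Submodule.map_subtype_le _ _
    · have h3 := Submodule.finrank_add_eq_of_isCompl hC
      have h4 : Module.finrank F (C.map (V ^ i).subtype) = Module.finrank F C :=
        LinearEquiv.finrank_eq (Submodule.equivMapOfInjective _ (Submodule.subtype_injective _) C).symm
      have h5 : Module.finrank F ((J V r i).submoduleOf (V ^ i)) = Module.finrank F (J V r i) :=
        LinearEquiv.finrank_eq (Submodule.submoduleOfEquivOfLe (J_le hr i))
      rw [h4]
      omega
  choose B hB1 hB2 hB3 using hB
  have hBfd : ∀ n, FiniteDimensional F (B n) := fun n => by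
    have := hVfd n
    exact Submodule.finiteDimensional_of_le (hB2 n)
  have key : ∀ n, Module.finrank F (J V r (n+1)) ≤
      3 * Module.finrank F (J V r n) + ∑ i ∈ Finset.range n, Module.finrank F (B i) := by
    intro n
    have := hJfd n
    have : ∀ i, FiniteDimensional F (B i) := hBfd
    have hle : J V r (n+1) ≤ J V r n * V ⊔ (Finset.range n).sup
        (fun i => B i * span F {r (n + 1 - i)}) := by
      rw [J]
      refine sup_le le_sup_left (iSup_le ?_)
      intro i
      have hi := i.2
      rw [hB1 i, Submodule.sup_mul]
      refine sup_le ?_ ?_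
      · refine le_trans ?_ le_sup_left
        obtain ⟨k, hk⟩ : ∃ k, n + 1 - i = k + 1 := ⟨n - i, by omega⟩
        have h1 : span F {r (n + 1 - i)} ≤ V ^ k * V := by
          rw [span_singleton_le_iff_mem, ← pow_succ, ← hk]
          exact hr _
        refine le_trans (mul_le_mul' le_rfl h1) ?_
        rw [← mul_assoc]
        refine mul_le_mul' ?_ le_rfl
        have h2 := J_mul_pow_le (V := V) (r := r) i k
        have h3 : (i : ℕ) + k = n := by omega
        rw [h3] at h2
        exact h2
      · refine le_trans ?_ le_sup_right
        exact Finset.le_sup (f := fun i => B i * span F {r (n + 1 - i)}) (Finset.mem_range.2 hi)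
    have hfin : ∀ s : Finset ℕ, FiniteDimensional F
        (s.sup (fun i => B i * span F {r (n + 1 - i)}) : Submodule F T) := fun s =>
      Submodule.finiteDimensional_finset_sup _ _
    have hsum : ∀ s : Finset ℕ, Module.finrank F
        (s.sup (fun i => B i * span F {r (n + 1 - i)}) : Submodule F T) ≤
        ∑ i ∈ s, Module.finrank F (B i) := by
      intro s
      induction s using Finset.induction_on with
      | empty => simp
      | insert a s ha ih =>
        rw [Finset.sup_insert, Finset.sum_insert ha]
        have := hfin s
        have h1 := Submodule.finrank_add_le_finrank_add_finrank (B a * span F {r (n + 1 - a)})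
          (s.sup (fun i => B i * span F {r (n + 1 - i)}))
        have h2 := finrank_mul_singleton_le (B a) (r (n + 1 - a))
        omega
    have : FiniteDimensional F (J V r n * V : Submodule F T) := by
      apply (Submodule.fg_iff_finiteDimensional _).1
      exact Submodule.FG.mul ((Submodule.fg_iff_finiteDimensional _).2 inferInstance) hVfg
    have := hfin (Finset.range n)
    have h1 := Submodule.finrank_mono hle
    have h2 := Submodule.finrank_add_le_finrank_add_finrank (J V r n * V)
      ((Finset.range n).sup (fun i => B i * span F {r (n + 1 - i)}))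
    have h3 := hsum (Finset.range n)
    have h4 : Module.finrank F (J V r n * V : Submodule F T) ≤ 3 * Module.finrank F (J V r n) := by
      have h5 := finrank_mul_span3_le (J V r n) x y z
      rw [← hV] at h5
      exact h5
    omega
  have hBa : ∀ i, (Module.finrank F (B i) : ℤ) = (Module.finrank F (V ^ i : Submodule F T) -
      Module.finrank F (J V r i) : ℤ) := by
    intro i
    have := hB3 i
    omega
  simp only [← hBa]
  induction n with
  | zero =>
    have h0 := hB3 0
    have h1 : Module.finrank F (J V r 0) = 0 := by rw [J]; simp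
    rw [hdim 0, h1] at h0
    simp at h0
    simp [h0]
  | succ n ih =>
    rw [Finset.sum_range_succ]
    have h1 := key n
    have h2 := hB3 n
    have h3 := hB3 (n+1)
    rw [hdim n] at h2
    rw [hdim (n+1), pow_succ] at h3
    push_cast at *
    have h1' : (Module.finrank F (J V r (n+1)) : ℤ) ≤
      3 * Module.finrank F (J V r n) + ∑ i ∈ Finset.range n, (Module.finrank F (B i) : ℤ) := by
      exact_mod_cast h1
    have h2' : (Module.finrank F (B n) : ℤ) + Module.finrank F (J V r n) = 3 ^ n := by
      exact_mod_cast h2
    have h3' : (Module.finrank F (B (n+1)) : ℤ) + Module.finrank F (J V r (n+1)) = 3 ^ n * 3 := by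
      exact_mod_cast h3
    linarith

end GSdim

end Pool.Agent.MP_4977d9_al
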