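import Mathlib
import Pool.Agent.MP_4977d9_al.GSDim

/-! The free associative algebra on three generators and its grading by length. -/

namespace Pool.Agent.MP_4977d9_al

open Submodule MonoidAlgebra

universe u
variable (F : Type u) [Field F]

/-- free associative algebra on three generators -/
abbrev T := MonoidAlgebra F (FreeMonoid (Fin 3))

/-- homogeneous component -/
noncomputable def deg (n : ℕ) : Submodule F (T F) := supported F F {w | w.length = n}

variable {F}

theorem mem_deg {n : ℕ} {t : T F} : t ∈ deg F n ↔ ∀ w, t.coeff w ≠ 0 → w.length = n := by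
  rw [deg, mem_supported']
  constructor
  · intro h w hw
    by_contra hne
    exact hw (h w hne)
  · intro h w hw
    by_contra hne
    exact hw (h w hne)

/-- generators -/
noncomputable def X (i : Fin 3) : T F := MonoidAlgebra.of F (FreeMonoid (Fin 3)) (FreeMonoid.of i)

variable (F)
/-- the span of the generators -/
noncomputable def V : Submodule F (T F) := span F {X 0, X 1, X 2}
variable {F}

theorem X_mem_V (i : Fin 3) : (X i : T F) ∈ V F := by
  apply subset_span
  fin_cases i <;> simp

theorem of_mem_pow (w : FreeMonoid (Fin 3)) :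
    MonoidAlgebra.of F (FreeMonoid (Fin 3)) w ∈ V F ^ w.length := by
  induction w using FreeMonoid.inductionOn' with
  | one => rw [map_one, FreeMonoid.length_one, pow_zero]; exact Submodule.one_le.1 le_rfl
  | of_mul i w ih =>
    rw [map_mul, FreeMonoid.length_mul, FreeMonoid.length_of, pow_add, pow_one]
    exact Submodule.mul_mem_mul (X_mem_V i) ih

theorem mul_mem_deg {m n : ℕ} {s t : T F} (hs : s ∈ deg F m) (ht : t ∈ deg F n) :
    s * t ∈ deg F (m + n) := by
  classical
  rw [deg, mem_supported] at *
  refine (Finset.coe_subset.2 (MonoidAlgebra.support_coeff_mul_subset s t)).trans ?_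
  rw [Finset.coe_mul]
  rintro _ ⟨a, ha, b, hb, rfl⟩
  have h1 : a.length = m := hs ha
  have h2 : b.length = n := ht hb
  simp [FreeMonoid.length_mul, h1, h2]

theorem one_mem_deg : (1 : T F) ∈ deg F 0 := by
  classical
  rw [mem_deg]
  intro w hw
  rw [MonoidAlgebra.one_def, coeff_single, Finsupp.single_apply] at hw
  split_ifs at hw with h
  · rw [← h]; rfl
  · exact absurd rfl hw

theorem X_mem_deg (i : Fin 3) : (X i : T F) ∈ deg F 1 := by
  classical
  rw [mem_deg]
  intro w hw
  rw [X, MonoidAlgebra.of_apply, coeff_single, Finsupp.single_apply] at hw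
  split_ifs at hw with h
  · rw [← h]; rfl
  · exact absurd rfl hw

theorem V_pow (n : ℕ) : V F ^ n = deg F n := by
  apply le_antisymm
  · induction n with
    | zero =>
      rw [pow_zero, Submodule.one_le]
      exact one_mem_deg
    | succ n ih =>
      rw [pow_succ, Submodule.mul_le]
      intro a ha b hb
      refine mul_mem_deg (ih ha) ?_
      have : V F ≤ deg F 1 := by
        rw [V, span_le]
        intro x hx
        simp only [Set.mem_insert_iff, Set.mem_singleton_iff] at hx
        rcases hx with rfl | rfl | rfl <;> exact X_mem_deg _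
      exact this hb
  · rw [deg, supported_eq_span_single, span_le]
    rintro _ ⟨w, hw, rfl⟩
    have := of_mem_pow (F := F) w
    rw [show w.length = n from hw] at this
    exact this

theorem finrank_deg (n : ℕ) : Module.finrank F (deg F n) = 3 ^ n := by
  have h1 : Module.finrank F (deg F n) =
      Module.finrank F ({w : FreeMonoid (Fin 3) | w.length = n} →₀ F) :=
    LinearEquiv.finrank_eq (supportedEquivFinsupp (R := F) (S := F) _)
  let e : {w : FreeMonoid (Fin 3) | w.length = n} ≃ List.Vector (Fin 3) n := Equiv.refl _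
  have h2 : Module.finrank F ({w : FreeMonoid (Fin 3) | w.length = n} →₀ F) =
      Module.finrank F (List.Vector (Fin 3) n →₀ F) :=
    LinearEquiv.finrank_eq (Finsupp.domLCongr e)
  rw [h1, h2, Module.finrank_finsupp_self, card_vector, Fintype.card_fin]

/-- projection to degree n -/
noncomputable def proj (n : ℕ) : T F →ₗ[F] T F where
  toFun t := ofCoeff (Finsupp.filter (fun w => w.length = n) t.coeff)
  map_add' s t := by
    rw [coeff_add, Finsupp.filter_add, ofCoeff_add]
  map_smul' c t := by
    rw [coeff_smul, Finsupp.filter_smul, ofCoeff_smul]; rfl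

theorem coeff_proj (n : ℕ) (t : T F) (w : FreeMonoid (Fin 3)) :
    (proj n t).coeff w = if w.length = n then t.coeff w else 0 := by
  simp [proj, Finsupp.filter_apply]

theorem proj_mem_deg (n : ℕ) (t : T F) : proj n t ∈ deg F n := by
  rw [mem_deg]
  intro w hw
  rw [coeff_proj] at hw
  by_contra h
  simp [h] at hw

theorem proj_of_mem {n : ℕ} {t : T F} (ht : t ∈ deg F n) : proj n t = t := by
  rw [mem_deg] at ht
  ext w
  rw [coeff_proj]
  split_ifs with h
  · rfl
  · by_contra hne
    exact h (ht w (Ne.symm hne))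

theorem proj_of_mem_ne {m n : ℕ} {t : T F} (ht : t ∈ deg F m) (hmn : m ≠ n) : proj n t = 0 := by
  rw [mem_deg] at ht
  ext w
  rw [coeff_proj]
  split_ifs with h
  · by_contra hne
    exact hmn ((ht w hne).symm.trans h)
  · rfl

/-- elements with all words of length in `[a,b]` -/
noncomputable def band (F : Type u) [Field F] (a b : ℕ) : Submodule F (T F) :=
  supported F F {w | a ≤ w.length ∧ w.length ≤ b}

theorem mem_band {a b : ℕ} {t : T F} :
    t ∈ band F a b ↔ ∀ w, t.coeff w ≠ 0 → a ≤ w.length ∧ w.length ≤ b := by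
  rw [band, mem_supported']
  constructor
  · intro h w hw
    by_contra hne
    exact hw (h w hne)
  · intro h w hw
    by_contra hne
    exact hw (h w hne)

theorem mul_mem_band {a b c d : ℕ} {s t : T F} (hs : s ∈ band F a b) (ht : t ∈ band F c d) :
    s * t ∈ band F (a + c) (b + d) := by
  classical
  rw [band, mem_supported] at *
  refine (Finset.coe_subset.2 (MonoidAlgebra.support_coeff_mul_subset s t)).trans ?_
  rw [Finset.coe_mul]
  rintro _ ⟨x, hx, y, hy, rfl⟩
  have h1 := hs hx
  have h2 := ht hy
  simp only [Set.mem_ofPred_eq] at h1 h2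
  simp only [FreeMonoid.length_mul, Set.mem_ofPred_eq]
  omega

theorem pow_mem_band {a b : ℕ} {t : T F} (ht : t ∈ band F a b) (m : ℕ) :
    t ^ m ∈ band F (m * a) (m * b) := by
  induction m with
  | zero =>
    rw [pow_zero, mem_band]
    intro w hw
    have := mem_deg.1 (one_mem_deg (F := F)) w hw
    omega
  | succ m ih =>
    rw [pow_succ, add_mul, add_mul, one_mul, one_mul]
    exact mul_mem_band ih ht

theorem proj_band_eq_zero {a b n : ℕ} {t : T F} (ht : t ∈ band F a b) (h : ¬ (a ≤ n ∧ n ≤ b)) :
    proj n t = 0 := by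
  rw [mem_band] at ht
  ext w
  rw [coeff_proj]
  split_ifs with h1
  · by_contra hne
    rw [← h1] at h
    exact h (ht w hne)
  · rfl

theorem sum_proj {a b : ℕ} {t : T F} (ht : t ∈ band F a b) :
    t = ∑ n ∈ Finset.range (b + 1), proj n t := by
  rw [mem_band] at ht
  ext w
  rw [coeff_sum, Finsupp.finsetSum_apply]
  simp only [coeff_proj]
  rw [Finset.sum_ite_eq]
  split_ifs with h
  · rfl
  · by_contra hne
    have := ht w hne
    simp at h
    omega

theorem exists_band (t : T F) : ∃ b, t ∈ band F 0 b := by
  refine ⟨t.coeff.support.sup FreeMonoid.length, ?_⟩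
  rw [mem_band]
  intro w hw
  refine ⟨Nat.zero_le _, ?_⟩
  exact Finset.le_sup (f := FreeMonoid.length) (Finsupp.mem_support_iff.2 hw)

theorem exists_band_one (t : T F) (h0 : t.coeff 1 = 0) : ∃ b, 1 ≤ b ∧ t ∈ band F 1 b := by
  obtain ⟨b, hb⟩ := exists_band t
  refine ⟨b + 1, by omega, ?_⟩
  rw [mem_band] at *
  intro w hw
  have h1 := hb w hw
  have h2 : w.length ≠ 0 := by
    intro h
    rw [FreeMonoid.length_eq_zero] at h
    rw [h] at hw
    exact hw h0
  omega

/-- The total ideal as a submodule -/
noncomputable def Jtot (r : ℕ → T F) : Submodule F (T F) := ⨆ n, J (V F) r n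

variable {r : ℕ → T F}

theorem J_le_deg (hr : ∀ m, r m ∈ deg F m) (n : ℕ) : J (V F) r n ≤ deg F n := by
  rw [← V_pow]
  exact J_le (fun m => by rw [V_pow]; exact hr m) n

theorem mem_Jtot (hr : ∀ m, r m ∈ deg F m) (t : T F) :
    t ∈ Jtot r ↔ ∀ n, proj n t ∈ J (V F) r n := by
  constructor
  · intro ht n
    have h1 : Jtot r ≤ (J (V F) r n).comap (proj n) := by
      refine iSup_le fun m s hs => ?_
      rw [Submodule.mem_comap]
      have h2 := J_le_deg hr m hs
      by_cases hmn : m = n
      · subst hmn
        rw [proj_of_mem h2]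
        exact hs
      · rw [proj_of_mem_ne h2 hmn]
        exact Submodule.zero_mem _
    exact h1 ht
  · intro h
    obtain ⟨b, hb⟩ := exists_band t
    rw [sum_proj hb]
    refine Submodule.sum_mem _ fun n _ => ?_
    exact (le_iSup (fun n => J (V F) r n) n) (h n)

theorem iSup_pow_V : (⨆ n : ℕ, V F ^ n) = ⊤ := by
  rw [eq_top_iff]
  intro t _
  obtain ⟨b, hb⟩ := exists_band t
  rw [sum_proj hb]
  refine Submodule.sum_mem _ fun n _ => ?_
  refine (le_iSup (fun n => V F ^ n) n) ?_
  simp only [V_pow]
  exact proj_mem_deg n t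

theorem mul_mem_Jtot (s t : T F) (ht : t ∈ Jtot r) : s * t ∈ Jtot r := by
  have h1 : (⊤ : Submodule F (T F)) * Jtot r ≤ Jtot r := by
    rw [← iSup_pow_V, Jtot, Submodule.iSup_mul]
    refine iSup_le fun k => ?_
    rw [Submodule.mul_iSup]
    refine iSup_le fun n => ?_
    exact le_trans (pow_mul_J_le n k) (le_iSup (fun n => J (V F) r n) (n + k))
  exact h1 (Submodule.mul_mem_mul Submodule.mem_top ht)

theorem Jtot_mul_mem (s t : T F) (hs : s ∈ Jtot r) : s * t ∈ Jtot r := by
  have h1 : Jtot r * (⊤ : Submodule F (T F)) ≤ Jtot r := by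
    rw [← iSup_pow_V, Jtot, Submodule.iSup_mul]
    refine iSup_le fun n => ?_
    rw [Submodule.mul_iSup]
    refine iSup_le fun k => ?_
    exact le_trans (J_mul_pow_le n k) (le_iSup (fun n => J (V F) r n) (n + k))
  exact h1 (Submodule.mul_mem_mul hs Submodule.mem_top)

/-- not everything of degree `n` is in the ideal -/
theorem exists_word_not_mem (hr : ∀ m, r m ∈ deg F m) (n : ℕ) :
    ∃ w : FreeMonoid (Fin 3), w.length = n ∧ MonoidAlgebra.of F _ w ∉ Jtot r := by
  by_contra hcon
  push Not at hcon
  have h1 : deg F n ≤ J (V F) r n := by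
    rw [deg, supported_eq_span_single, span_le]
    rintro _ ⟨w, hw, rfl⟩
    have h2 := (mem_Jtot hr _).1 (hcon w hw) n
    have h3 : MonoidAlgebra.of F (FreeMonoid (Fin 3)) w ∈ deg F n := by
      have := of_mem_pow (F := F) w
      rw [V_pow, show w.length = n from hw] at this
      exact this
    rw [proj_of_mem h3] at h2
    exact h2
  have h2 := le_antisymm (J_le_deg hr n) h1
  have h3 := finrank_J (V := V F) (r := r) (X 0) (X 1) (X 2) rfl
    (fun m => by rw [V_pow]; exact hr m) (fun n => by rw [V_pow]; exact finrank_deg n)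
  have h4 : ∀ n, (0 : ℤ) ≤ (Module.finrank F (V F ^ n : Submodule F (T F)) -
      Module.finrank F (J (V F) r n) : ℤ) := by
    intro n
    induction n using Nat.strong_induction_on with
    | _ n ih =>
      have h5 := h3 n
      have h6 : (0 : ℤ) ≤ ∑ j ∈ Finset.range n, (Module.finrank F (V F ^ j : Submodule F (T F)) -
        Module.finrank F (J (V F) r j) : ℤ) :=
        Finset.sum_nonneg fun j hj => ih j (Finset.mem_range.1 hj)
      linarith
  have h5 := h3 n
  have h6 : (0 : ℤ) ≤ ∑ j ∈ Finset.range n, (Module.finrank F (V F ^ j : Submodule F (T F)) -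
    Module.finrank F (J (V F) r j) : ℤ) := Finset.sum_nonneg fun j _ => h4 j
  rw [V_pow, h2] at h5
  linarith

end Pool.Agent.MP_4977d9_al
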