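import Mathlib
import Pool.Agent.MP_4977d9_al.Free

/-! Over a countable field there is a three-generated nil algebra of infinite dimension. -/

namespace Pool.Agent.MP_4977d9_al

open Submodule MonoidAlgebra

universe u
variable {F : Type u} [Field F]

instance countable_T [Countable F] : Countable (T F) := by
  have : Countable (FreeMonoid (Fin 3)) := inferInstanceAs (Countable (List (Fin 3)))
  exact (MonoidAlgebra.coeffEquiv (R := F) (M := FreeMonoid (Fin 3))).countable_iff.2 inferInstance

/-- fast growing exponents -/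
def Mseq (d : ℕ → ℕ) : ℕ → ℕ
  | 0 => 2
  | i+1 => Mseq d i * d i + 1

theorem exists_relations [Countable F] : ∃ r : ℕ → T F, (∀ m, r m ∈ deg F m) ∧
    ∀ t : T F, t.coeff 1 = 0 → ∃ m : ℕ, t ^ m ∈ Jtot r := by
  classical
  obtain ⟨f, hf⟩ := exists_surjective_nat (T F)
  have hD : ∀ t : T F, ∃ b, 1 ≤ b ∧ (t.coeff 1 = 0 → t ∈ band F 1 b) := by
    intro t
    by_cases h : t.coeff 1 = 0
    · obtain ⟨b, hb1, hb2⟩ := exists_band_one t h
      exact ⟨b, hb1, fun _ => hb2⟩
    · exact ⟨1, le_rfl, fun h' => absurd h' h⟩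
  choose D hD1 hD2 using hD
  obtain ⟨M, hM0, hMs⟩ : ∃ M : ℕ → ℕ, M 0 = 2 ∧ ∀ i, M (i+1) = M i * D (f i) + 1 :=
    ⟨Mseq (fun i => D (f i)), rfl, fun i => rfl⟩
  have hMlt : ∀ i, M i < M (i+1) := by
    intro i
    rw [hMs]
    have := hD1 (f i)
    nlinarith [Nat.zero_le (M i)]
  have hMmono : StrictMono M := strictMono_nat_of_lt_succ hMlt
  have huniq : ∀ i j n, M i ≤ n → n ≤ M i * D (f i) → M j ≤ n → n ≤ M j * D (f j) → i = j := by
    intro i j n h1 h2 h3 h4
    rcases lt_trichotomy i j with h | h | h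
    · have h5 := hMmono.monotone (Nat.succ_le_of_lt h)
      have h6 := hMs i
      simp only [Nat.succ_eq_add_one] at h5
      omega
    · exact h
    · have h5 := hMmono.monotone (Nat.succ_le_of_lt h)
      have h6 := hMs j
      simp only [Nat.succ_eq_add_one] at h5
      omega
  have hex : ∀ n, ∃ t : T F, t ∈ deg F n ∧ ∀ i, M i ≤ n → n ≤ M i * D (f i) →
      t = proj n ((f i) ^ (M i)) := by
    intro n
    by_cases h : ∃ i : ℕ, M i ≤ n ∧ n ≤ M i * D (f i)
    · obtain ⟨i, h1, h2⟩ := h
      refine ⟨proj n ((f i) ^ (M i)), proj_mem_deg _ _, ?_⟩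
      intro j h3 h4
      rw [huniq i j n h1 h2 h3 h4]
    · refine ⟨0, Submodule.zero_mem _, ?_⟩
      intro i h1 h2
      exact absurd ⟨i, h1, h2⟩ h
  choose r hr hr2 using hex
  refine ⟨r, hr, ?_⟩
  intro t ht
  obtain ⟨i, rfl⟩ := hf t
  refine ⟨M i, ?_⟩
  rw [mem_Jtot hr]
  intro n
  have h1 := pow_mem_band (hD2 _ ht) (M i)
  by_cases h : M i ≤ n ∧ n ≤ M i * D (f i)
  · rw [← hr2 n i h.1 h.2]
    apply rel_mem
    have h2 := hMmono.monotone (Nat.zero_le i)
    rw [hM0] at h2
    omega
  · rw [proj_band_eq_zero h1 (by rw [mul_one]; exact h)]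
    exact Submodule.zero_mem _

/-- the two-sided ideal -/
noncomputable def Iideal (r : ℕ → T F) : Ideal (T F) where
  carrier := Jtot r
  add_mem' ha hb := Submodule.add_mem _ ha hb
  zero_mem' := Submodule.zero_mem _
  smul_mem' c x hx := mul_mem_Jtot c x hx

theorem mem_Iideal (r : ℕ → T F) (x : T F) : x ∈ Iideal r ↔ x ∈ Jtot r := Iff.rfl

instance (r : ℕ → T F) : (Iideal r).IsTwoSided where
  mul_mem_of_left b ha := Jtot_mul_mem _ b ha

/-- Golod and Shafarevich: a three-generated infinite-dimensional algebra whose augmentation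
ideal is nil, over any countable field. -/
theorem exists_nil_algebra (F : Type u) [Field F] [Countable F] :
    ∃ (Γ : Type u) (_ : Ring Γ) (_ : Algebra F Γ) (φ : T F →ₐ[F] Γ),
      Function.Surjective φ ∧ (∀ t : T F, t.coeff 1 = 0 → IsNilpotent (φ t)) ∧
      ∃ u : ℕ → T F, (∀ k, (u k).coeff 1 = 0) ∧ LinearIndependent F (fun k => φ (u k)) := by
  classical
  obtain ⟨r, hr, hnil⟩ := exists_relations (F := F)
  refine ⟨T F ⧸ Iideal r, inferInstance, inferInstance, Ideal.Quotient.mkₐ F (Iideal r), ?_, ?_, ?_⟩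
  · exact Ideal.Quotient.mkₐ_surjective F _
  · intro t ht
    obtain ⟨m, hm⟩ := hnil t ht
    refine ⟨m, ?_⟩
    rw [← map_pow]
    exact Ideal.Quotient.eq_zero_iff_mem.2 hm
  · have hw := exists_word_not_mem (r := r) hr
    choose w hw1 hw2 using hw
    refine ⟨fun k => MonoidAlgebra.of F _ (w (k+1)), ?_, ?_⟩
    · intro k
      show (MonoidAlgebra.of F _ (w (k+1))).coeff 1 = 0
      rw [MonoidAlgebra.of_apply, coeff_single, Finsupp.single_apply, if_neg]
      intro h
      have := hw1 (k+1)
      rw [h, FreeMonoid.length_one] at this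
      omega
    · rw [linearIndependent_iff]
      intro l hl
      ext k
      have h1 : Finsupp.linearCombination F (fun k => MonoidAlgebra.of F _ (w (k+1))) l ∈ Jtot r := by
        have h2 : Ideal.Quotient.mkₐ F (Iideal r)
            (Finsupp.linearCombination F (fun k => MonoidAlgebra.of F _ (w (k+1))) l) = 0 := by
          rw [← hl]
          exact Finsupp.apply_linearCombination F (Ideal.Quotient.mkₐ F (Iideal r)).toLinearMap
            (fun k => MonoidAlgebra.of F _ (w (k+1))) l
        exact Ideal.Quotient.eq_zero_iff_mem.1 h2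
      have h3 := (mem_Jtot hr _).1 h1 (k+1)
      have h4 : proj (k+1) (Finsupp.linearCombination F (fun k => MonoidAlgebra.of F _ (w (k+1))) l)
          = l k • MonoidAlgebra.of F _ (w (k+1)) := by
        rw [Finsupp.apply_linearCombination, Finsupp.linearCombination_apply, Finsupp.sum]
        rw [Finset.sum_eq_single k]
        · simp only [Function.comp]
          rw [proj_of_mem]
          have := of_mem_pow (F := F) (w (k+1))
          rw [V_pow, hw1] at this
          exact this
        · intro j _ hj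
          simp only [Function.comp]
          have := of_mem_pow (F := F) (w (j+1))
          rw [V_pow, hw1] at this
          rw [proj_of_mem_ne this (by omega), smul_zero]
        · intro h
          rw [Finsupp.notMem_support_iff.1 h, zero_smul]
      rw [h4] at h3
      have h5 : l k • MonoidAlgebra.of F _ (w (k+1)) ∈ Jtot r :=
        (le_iSup (fun n => J (V F) r n) (k+1)) h3
      by_contra hne
      have h6 := (Jtot r).smul_mem (l k)⁻¹ h5
      rw [smul_smul, inv_mul_cancel₀ hne, one_smul] at h6
      exact hw2 _ h6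

end Pool.Agent.MP_4977d9_al
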