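import Mathlib
import Pool.Agent.MP_4977d9_al.Nil

/-! Operators of finite rank with values in the nilradical are nilpotent; sandwich construction. -/

namespace Pool.Agent.MP_4977d9_al

open Submodule TensorProduct

universe u v w

section FiniteRank

variable (C : Type u) [CommRing C] (W : Type v) [AddCommGroup W] [Module C W]

/-- endomorphisms of finite rank with range in `nilradical • W` -/
def FR : Set (Module.End C W) :=
  {r | (∃ W₀ : Submodule C W, W₀.FG ∧ LinearMap.range r ≤ W₀) ∧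
    LinearMap.range r ≤ nilradical C • (⊤ : Submodule C W)}

variable {C W}

theorem FR_zero : (0 : Module.End C W) ∈ FR C W := by
  refine ⟨⟨⊥, Submodule.fg_bot, ?_⟩, ?_⟩ <;> rw [LinearMap.range_zero]; exact bot_le

theorem FR_add {r s : Module.End C W} (hr : r ∈ FR C W) (hs : s ∈ FR C W) : r + s ∈ FR C W := by
  obtain ⟨⟨W₁, h1, h2⟩, h3⟩ := hr
  obtain ⟨⟨W₂, h4, h5⟩, h6⟩ := hs
  refine ⟨⟨W₁ ⊔ W₂, h1.sup h4, ?_⟩, ?_⟩
  · rintro _ ⟨x, rfl⟩
    exact Submodule.add_mem_sup (h2 ⟨x, rfl⟩) (h5 ⟨x, rfl⟩)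
  · rintro _ ⟨x, rfl⟩
    exact Submodule.add_mem _ (h3 ⟨x, rfl⟩) (h6 ⟨x, rfl⟩)

theorem FR_mul_left (a : Module.End C W) {r : Module.End C W} (hr : r ∈ FR C W) :
    a * r ∈ FR C W := by
  obtain ⟨⟨W₁, h1, h2⟩, h3⟩ := hr
  refine ⟨⟨W₁.map a, h1.map a, ?_⟩, ?_⟩
  · rintro _ ⟨x, rfl⟩
    exact ⟨r x, h2 ⟨x, rfl⟩, rfl⟩
  · rintro _ ⟨x, rfl⟩
    have h4 : a (r x) ∈ (nilradical C • (⊤ : Submodule C W)).map a := ⟨r x, h3 ⟨x, rfl⟩, rfl⟩
    rw [Submodule.map_smul''] at h4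
    exact Submodule.smul_mono le_rfl le_top h4

theorem FR_mul_right (a : Module.End C W) {r : Module.End C W} (hr : r ∈ FR C W) :
    r * a ∈ FR C W := by
  obtain ⟨⟨W₁, h1, h2⟩, h3⟩ := hr
  refine ⟨⟨W₁, h1, ?_⟩, ?_⟩
  · rintro _ ⟨x, rfl⟩
    exact h2 ⟨a x, rfl⟩
  · rintro _ ⟨x, rfl⟩
    exact h3 ⟨a x, rfl⟩

/-- members of `nilradical • ⊤` are in `𝔞 • ⊤` for a finitely generated ideal `𝔞` of nilpotents -/
theorem exists_fg_ideal (x : W) (hx : x ∈ nilradical C • (⊤ : Submodule C W)) :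
    ∃ 𝔞 : Ideal C, 𝔞.FG ∧ 𝔞 ≤ nilradical C ∧ x ∈ 𝔞 • (⊤ : Submodule C W) := by
  refine Submodule.smul_induction_on hx ?_ ?_
  · intro c hc n _
    refine ⟨Ideal.span {c}, ⟨{c}, by simp [Ideal.span]⟩, ?_, ?_⟩
    · rw [Ideal.span_singleton_le_iff_mem]; exact hc
    · exact Submodule.smul_mem_smul (Ideal.mem_span_singleton_self c) Submodule.mem_top
  · rintro a b ⟨A, hA1, hA2, hA3⟩ ⟨B, hB1, hB2, hB3⟩
    refine ⟨A ⊔ B, Submodule.FG.sup hA1 hB1, sup_le hA2 hB2, ?_⟩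
    exact Submodule.add_mem _ (Submodule.smul_mono_left le_sup_left hA3)
      (Submodule.smul_mono_left le_sup_right hB3)

theorem FR_isNilpotent {r : Module.End C W} (hr : r ∈ FR C W) : IsNilpotent r := by
  classical
  obtain ⟨⟨W₀, h1, h2⟩, h3⟩ := hr
  obtain ⟨S, hS⟩ := h1
  have h4 : ∀ x : W, ∃ 𝔞 : Ideal C, 𝔞.FG ∧ 𝔞 ≤ nilradical C ∧ r x ∈ 𝔞 • (⊤ : Submodule C W) :=
    fun x => exists_fg_ideal (r x) (h3 ⟨x, rfl⟩)
  choose I hI1 hI2 hI3 using h4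
  let 𝔞 : Ideal C := S.sup I
  have ha1 : 𝔞.FG := by
    have : ∀ S : Finset W, (S.sup I : Ideal C).FG := by
      intro S
      induction S using Finset.induction_on with
      | empty => exact ⟨∅, by simp⟩
      | insert a s _ ih => rw [Finset.sup_insert]; exact Submodule.FG.sup (hI1 a) ih
    exact this S
  have ha2 : 𝔞 ≤ nilradical C := Finset.sup_le fun x _ => hI2 x
  obtain ⟨k, hk⟩ := (Ideal.FG.isNilpotent_iff_le_nilradical ha1).2 ha2
  -- r maps W₀ into 𝔞 • ⊤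
  have h5 : W₀.map r ≤ 𝔞 • (⊤ : Submodule C W) := by
    rw [← hS, Submodule.map_span, Submodule.span_le]
    rintro _ ⟨x, hx, rfl⟩
    exact Submodule.smul_mono_left (Finset.le_sup (f := I) hx) (hI3 x)
  have h6 : ∀ m, LinearMap.range (r ^ (2 * m)) ≤ 𝔞 ^ m • (⊤ : Submodule C W) := by
    intro m
    induction m with
    | zero => simp
    | succ m ih =>
      rintro _ ⟨x, rfl⟩
      have h7 : (r ^ (2 * (m + 1))) x = r (r ((r ^ (2 * m)) x)) := by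
        rw [show 2 * (m + 1) = 2 + 2 * m by ring, pow_add, pow_two]
        rfl
      rw [h7]
      have h8 : (r ^ (2 * m)) x ∈ 𝔞 ^ m • (⊤ : Submodule C W) := ih ⟨x, rfl⟩
      have h9 : r ((r ^ (2 * m)) x) ∈ (𝔞 ^ m • (⊤ : Submodule C W)).map r := ⟨_, h8, rfl⟩
      rw [Submodule.map_smul'', Submodule.map_top] at h9
      have h10 : r ((r ^ (2 * m)) x) ∈ 𝔞 ^ m • W₀ := Submodule.smul_mono le_rfl h2 h9
      have h11 : r (r ((r ^ (2 * m)) x)) ∈ (𝔞 ^ m • W₀).map r := ⟨_, h10, rfl⟩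
      rw [Submodule.map_smul''] at h11
      have h12 := Submodule.smul_mono (le_refl (𝔞 ^ m)) h5 h11
      rw [← Submodule.mul_smul, ← pow_succ] at h12
      exact h12
  refine ⟨2 * k, ?_⟩
  have h13 := h6 k
  rw [hk] at h13
  ext x
  have h14 := h13 ⟨x, rfl⟩
  simpa using h14

end FiniteRank

end Pool.Agent.MP_4977d9_al
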