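import Mathlib
import Pool.Agent.MP_4977d9_al.Sandwich

/-! The commutative coefficient ring and the algebra with prescribed large nilpotency indices. -/

namespace Pool.Agent.MP_4977d9_al

open Submodule TensorProduct

universe u v w

section CoefRing

variable (F : Type u) [Field F] (N : ℕ → ℕ)

/-- ideal of truncation -/
noncomputable def truncIdeal : Ideal (MvPolynomial ℕ F) :=
  Ideal.span (Set.range fun k => (MvPolynomial.X k : MvPolynomial ℕ F) ^ N k)

/-- commutative algebra with generators `v k` subject to `v k ^ N k = 0` -/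
abbrev Cf := MvPolynomial ℕ F ⧸ truncIdeal F N

/-- the generators -/
noncomputable def vg (k : ℕ) : Cf F N := Ideal.Quotient.mk _ (MvPolynomial.X k)

theorem vg_pow (k : ℕ) : vg F N k ^ N k = 0 := by
  rw [vg, ← map_pow, Ideal.Quotient.eq_zero_iff_mem]
  exact Ideal.subset_span ⟨k, rfl⟩

theorem vg_mem (k : ℕ) : vg F N k ∈ nilradical (Cf F N) := by
  rw [mem_nilradical]
  exact ⟨N k, vg_pow F N k⟩

theorem vg_pow_ne (hN : ∀ k, 1 ≤ N k) (k m : ℕ) (hm : m < N k) : vg F N k ^ m ≠ 0 := by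
  classical
  intro h
  rw [vg, ← map_pow, Ideal.Quotient.eq_zero_iff_mem] at h
  let ev : MvPolynomial ℕ F →ₐ[F] Polynomial F :=
    MvPolynomial.aeval (fun j => if j = k then (Polynomial.X : Polynomial F) else 0)
  have h1 : truncIdeal F N ≤ (Ideal.span {(Polynomial.X : Polynomial F) ^ N k}).comap ev := by
    rw [truncIdeal, Ideal.span_le]
    rintro _ ⟨j, rfl⟩
    simp only [SetLike.mem_coe, Ideal.mem_comap, map_pow]
    have h2 : ev (MvPolynomial.X j) = if j = k then (Polynomial.X : Polynomial F) else 0 := by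
      simp [ev]
    rw [h2]
    split_ifs with hjk
    · subst hjk
      exact Ideal.mem_span_singleton_self _
    · rw [zero_pow (by have := hN j; omega)]
      exact Ideal.zero_mem _
  have h3 := h1 h
  rw [Ideal.mem_comap, map_pow] at h3
  have h2 : ev (MvPolynomial.X k) = (Polynomial.X : Polynomial F) := by
    simp [ev]
  rw [h2, Ideal.mem_span_singleton, Polynomial.X_pow_dvd_iff] at h3
  have h4 := h3 m hm
  simp at h4

end CoefRing

section Lmap

variable {F : Type u} [Field F] {Γ : Type v} [Ring Γ] [Algebra F Γ] (N : ℕ → ℕ)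

theorem exists_L (g : ℕ → Γ) (hg : LinearIndependent F g) :
    ∃ L : Γ →ₗ[F] Cf F N, (∀ k, L (g k) = vg F N k) ∧ ∀ x, L x ∈ nilradical (Cf F N) := by
  classical
  let P : Submodule F (Cf F N) := (nilradical (Cf F N)).restrictScalars F
  let f : (ℕ →₀ F) →ₗ[F] P := Finsupp.linearCombination F (fun k => (⟨vg F N k, vg_mem F N k⟩ : P))
  obtain ⟨L₀, hL₀⟩ := LinearMap.exists_extend (f ∘ₗ hg.repr)
  refine ⟨P.subtype ∘ₗ L₀, ?_, ?_⟩
  · intro k
    have hk : g k ∈ span F (Set.range g) := subset_span ⟨k, rfl⟩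
    have h1 : L₀ (g k) = (f ∘ₗ hg.repr) ⟨g k, hk⟩ := by
      rw [← hL₀]; rfl
    have h2 : hg.repr ⟨g k, hk⟩ = Finsupp.single k 1 := hg.repr_eq_single k _ rfl
    rw [LinearMap.comp_apply, h1, LinearMap.comp_apply]
    rw [h2]
    simp [f, Finsupp.linearCombination_single]
  · intro x
    exact (L₀ x).2

end Lmap

section Construction

variable {F : Type u} [Field F] {Γ : Type u} [Ring Γ] [Algebra F Γ] (N : ℕ → ℕ)

/-- the module on which the sandwich algebra acts -/
abbrev Wm (F : Type u) [Field F] (Γ : Type u) [Ring Γ] [Algebra F Γ] (N : ℕ → ℕ) :=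
  Cf F N ⊗[F] Γ

/-- left multiplications -/
noncomputable def lam (F : Type u) [Field F] (Γ : Type u) [Ring Γ] [Algebra F Γ] (N : ℕ → ℕ) :
    Γ →ₐ[F] Module.End (Cf F N) (Wm F Γ N) :=
  ((Algebra.lmul (Cf F N) (Wm F Γ N)).restrictScalars F).comp Algebra.TensorProduct.includeRight

theorem lam_tmul (g : Γ) (c : Cf F N) (x : Γ) : lam F Γ N g (c ⊗ₜ x) = c ⊗ₜ (g * x) := by
  simp [lam]

/-- the rank-one operator -/
noncomputable def zop (L : Γ →ₗ[F] Cf F N) : Module.End (Cf F N) (Wm F Γ N) :=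
  (LinearMap.toSpanSingleton (Cf F N) (Wm F Γ N) (1 ⊗ₜ 1)) ∘ₗ (L.liftBaseChange (Cf F N))

theorem zop_tmul (L : Γ →ₗ[F] Cf F N) (c : Cf F N) (x : Γ) :
    zop N L (c ⊗ₜ x) = (c * L x) ⊗ₜ 1 := by
  simp [zop, LinearMap.toSpanSingleton_apply, TensorProduct.smul_tmul']

theorem zop_mem_FR (L : Γ →ₗ[F] Cf F N) (hL : ∀ x, L x ∈ nilradical (Cf F N)) :
    zop N L ∈ FR (Cf F N) (Wm F Γ N) := by
  refine ⟨⟨span (Cf F N) {1 ⊗ₜ 1}, Submodule.fg_span_singleton _, ?_⟩, ?_⟩
  · rintro _ ⟨x, rfl⟩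
    rw [zop, LinearMap.comp_apply, LinearMap.toSpanSingleton_apply]
    exact Submodule.smul_mem _ _ (mem_span_singleton_self _)
  · rintro _ ⟨x, rfl⟩
    rw [zop, LinearMap.comp_apply, LinearMap.toSpanSingleton_apply]
    refine Submodule.smul_mem_smul ?_ Submodule.mem_top
    induction x using TensorProduct.induction_on with
    | zero => rw [map_zero]; exact Submodule.zero_mem _
    | tmul c x =>
      rw [LinearMap.liftBaseChange_tmul]
      exact Ideal.mul_mem_left _ _ (hL x)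
    | add x y hx hy => rw [map_add]; exact Submodule.add_mem _ hx hy

/-- powers of `g z` act nontrivially -/
theorem theta_pow (L : Γ →ₗ[F] Cf F N) (g : Γ) (c : Cf F N) (m : ℕ) :
    ((lam F Γ N g * zop N L) ^ m) (c ⊗ₜ g) = (c * L g ^ m) ⊗ₜ g := by
  induction m with
  | zero => simp
  | succ m ih =>
    rw [pow_succ', Module.End.mul_apply, ih, Module.End.mul_apply, zop_tmul, lam_tmul, mul_one,
      pow_succ, mul_assoc]

theorem theta_pow_ne (L : Γ →ₗ[F] Cf F N) (g : Γ) (m : ℕ) (h : L g ^ (m + 1) ≠ 0) :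
    (lam F Γ N g * zop N L) ^ m ≠ 0 := by
  intro h0
  have h1 := theta_pow N L g 1 m
  rw [h0, LinearMap.zero_apply, one_mul] at h1
  have h2 := congrArg (L.liftBaseChange (Cf F N)) h1
  rw [map_zero, LinearMap.liftBaseChange_tmul, smul_eq_mul, ← pow_succ] at h2
  exact h h2.symm

end Construction

end Pool.Agent.MP_4977d9_al
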