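import Pool.Agent.MP_4977d9_al.Main

set_option linter.unusedVariables false

open Cardinal

universe u v w

namespace Pool.Agent.MP_4977d9_al

theorem countable_of_rank (F : Type u) [Field F] [Countable F] (V : Type v) [AddCommGroup V]
    [Module F V] (h : Module.rank F V ≤ Cardinal.aleph0) : Countable V := by
  let b := Module.Basis.ofVectorSpace F V
  have h1 : Countable (Module.Basis.ofVectorSpaceIndex F V) := by
    rw [← Cardinal.mk_le_aleph0_iff, b.mk_eq_rank'']
    exact h
  exact Function.Injective.countable b.repr.injective

theorem rank_of_countable (F : Type u) [Field F] (V : Type v) [AddCommGroup V]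
    [Module F V] [Countable V] : Module.rank F V ≤ Cardinal.aleph0 :=
  (rank_le_card F V).trans Cardinal.mk_le_aleph0

/-- transfer to another universe -/
theorem exists_model (F : Type u) [Field F] (A : Type v) [NonUnitalRing A] [Module F A]
    [IsScalarTower F A A] [SMulCommClass F A A] [Countable A] :
    ∃ (B : Type w) (_ : NonUnitalRing B) (_ : Module F B) (_ : IsScalarTower F B B)
      (_ : SMulCommClass F B B) (e : A →ₙₐ[F] B) (e' : B →ₙₐ[F] A),
      (∀ a, e' (e a) = a) ∧ (∀ b, e (e' b) = b) := by
  let B := Shrink.{w} A
  let f : B ≃+* A := (equivShrink.{w} A).symm.ringEquiv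
  have hf : ∀ (c : F) (b : B), f (c • b) = c • f b := fun c b =>
    ((equivShrink.{w} A).symm.linearEquiv F).map_smul c b
  have h1 : IsScalarTower F B B := ⟨fun c x y => by
    apply f.injective
    rw [smul_eq_mul, smul_eq_mul, map_mul, hf, hf, map_mul, smul_mul_assoc]⟩
  have h2 : SMulCommClass F B B := ⟨fun c x y => by
    apply f.injective
    rw [smul_eq_mul, smul_eq_mul, map_mul, hf, hf, map_mul, mul_smul_comm]⟩
  refine ⟨B, inferInstance, inferInstance, h1, h2,
    { toFun := f.symm
      map_smul' := fun c a => by
        apply f.injective
        rw [f.apply_symm_apply]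
        change _ = f (c • f.symm a)
        rw [hf, f.apply_symm_apply]
      map_zero' := map_zero _
      map_add' := map_add _
      map_mul' := map_mul _ },
    { toFun := f
      map_smul' := hf
      map_zero' := map_zero _
      map_add' := map_add _
      map_mul' := map_mul _ }, fun a => f.apply_symm_apply a, fun b => f.symm_apply_apply b⟩

/-- iterated product, a ^ (n + 1) -/
theorem iterate_mul_eq {E : Type u} [Ring E] (a : E) (n : ℕ) :
    (fun x => a * x)^[n] a = a ^ (n + 1) := by
  induction n with
  | zero => simp
  | succ n ih => rw [Function.iterate_succ_apply', ih, ← pow_succ' a (n+1)]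

end Pool.Agent.MP_4977d9_al
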