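import Mathlib
import Pool.Agent.MP_4977d9_al.Coef

/-! Diagonal argument. -/

namespace Pool.Agent.MP_4977d9_al

open Submodule TensorProduct

universe u v w

section Nilpotent

variable {F : Type u} [Field F] {E : Type v} [Ring E] [Algebra F E]

/-- a nilpotent element killed by a nonzero polynomial `f` satisfies `θ ^ natDegree f = 0` -/
theorem pow_natDegree_eq_zero (θ : E) (hθ : IsNilpotent θ) (f : Polynomial F) (hf : f ≠ 0)
    (h : Polynomial.aeval θ f = 0) : θ ^ f.natDegree = 0 := by
  obtain ⟨M, hM⟩ := hθ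
  have h1 : minpoly F θ ∣ Polynomial.X ^ M := by
    apply minpoly.dvd
    simp [hM]
  obtain ⟨j, _, hj⟩ := (dvd_prime_pow Polynomial.prime_X M).1 h1
  have h2 : minpoly F θ ∣ f := minpoly.dvd F θ h
  have h3 : (Polynomial.X : Polynomial F) ^ j ∣ f := (hj.symm.dvd).trans h2
  have h4 : j ≤ f.natDegree := by
    have := Polynomial.natDegree_le_of_dvd h3 hf
    simpa using this
  have h5 : θ ^ j = 0 := by
    obtain ⟨q, hq⟩ := hj.dvd
    have := congrArg (Polynomial.aeval θ) hq
    simpa using this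
  exact pow_eq_zero_of_le h4 h5

theorem finite_adjoin_of_isNilpotent_mem (A : NonUnitalSubalgebra F E) (a : A)
    (ha : IsNilpotent (a : E)) : Module.Finite F (NonUnitalAlgebra.adjoin F {a}) := by
  classical
  obtain ⟨M, hM⟩ := ha
  -- the subalgebra is spanned by the powers
  let S : Submodule F E := span F (((fun n : ℕ => (a : E) ^ n) '' (Finset.range M : Set ℕ)))
  have hS : FiniteDimensional F S :=
    FiniteDimensional.span_of_finite F ((Finset.finite_toSet _).image _)
  have hpow : ∀ n, (a : E) ^ n ∈ S := by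
    intro n
    by_cases h : n < M
    · exact subset_span ⟨n, by simpa using h, rfl⟩
    · rw [pow_eq_zero_of_le (not_lt.1 h) hM]; exact S.zero_mem
  have hmem : ∀ x ∈ NonUnitalAlgebra.adjoin F {a}, (x : E) ∈ S := by
    -- S is closed under multiplication
    have hmul : ∀ x ∈ S, ∀ y ∈ S, x * y ∈ S := by
      intro x hx y hy
      have h1 : S * S ≤ S := by
        rw [Submodule.span_mul_span, Submodule.span_le]
        rintro _ ⟨_, ⟨i, _, rfl⟩, _, ⟨j, _, rfl⟩, rfl⟩
        simp only [SetLike.mem_coe, ← pow_add]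
        exact hpow _
      exact h1 (Submodule.mul_mem_mul hx hy)
    intro x hx
    induction hx using NonUnitalAlgebra.adjoin_induction with
    | mem x hx =>
      rw [Set.mem_singleton_iff] at hx
      subst hx
      simpa using hpow 1
    | add x y _ _ h1 h2 => exact S.add_mem h1 h2
    | zero => exact S.zero_mem
    | mul x y _ _ h1 h2 => exact hmul _ h1 _ h2
    | smul r x _ h1 => exact S.smul_mem r h1
  let ι : NonUnitalAlgebra.adjoin F {a} →ₗ[F] S :=
    { toFun := fun x => ⟨((x : A) : E), hmem x x.2⟩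
      map_add' := fun x y => rfl
      map_smul' := fun r x => rfl }
  have hι : Function.Injective ι := by
    intro x y hxy
    have h1 : ((x : A) : E) = ((y : A) : E) := congrArg (fun z : S => (z : E)) hxy
    exact Subtype.ext (Subtype.ext h1)
  exact Module.Finite.of_injective ι hι

end Nilpotent

section Algebraic

variable {F : Type u} [Field F] {U : Type v} [NonUnitalRing U] [Module F U]
  [IsScalarTower F U U] [SMulCommClass F U U]

theorem exists_poly (a : U) (h : Module.Finite F (NonUnitalAlgebra.adjoin F {a})) :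
    ∃ f : Polynomial F, f ≠ 0 ∧ Polynomial.aeval (Unitization.inr a : Unitization F U) f = 0 := by
  let S := NonUnitalAlgebra.adjoin F {a}
  have hfin : Module.Finite F (Unitization F S) := Module.Finite.equiv (Unitization.linearEquiv F F S).symm
  let b : S := ⟨a, NonUnitalAlgebra.self_mem_adjoin_singleton F a⟩
  have h1 : IsIntegral F (Unitization.inr b : Unitization F S) := IsIntegral.of_finite F _
  obtain ⟨f, hf1, hf2⟩ := h1
  refine ⟨f, hf1.ne_zero, ?_⟩
  have h2 : Polynomial.aeval (Unitization.inr b : Unitization F S) f = 0 := hf2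
  let Φ : Unitization F S →ₐ[F] Unitization F U := 
    Unitization.lift ((Unitization.inrNonUnitalAlgHom F U).comp (NonUnitalSubalgebraClass.subtype S))
  have h3 := congrArg Φ h2
  rw [← Polynomial.aeval_algHom_apply, map_zero] at h3
  have h4 : Φ (Unitization.inr b) = Unitization.inr a := by
    simp [Φ, b]
  rw [h4] at h3
  exact h3

end Algebraic

section Ev

variable {F : Type u} [Field F]

/-- evaluation of noncommutative polynomials -/
noncomputable def ev {B : Type v} [Ring B] [Algebra F B] (s : Fin 3 → B) : T F →ₐ[F] B :=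
  MonoidAlgebra.lift F B (FreeMonoid (Fin 3)) (FreeMonoid.lift s)

theorem ev_X {B : Type v} [Ring B] [Algebra F B] (s : Fin 3 → B) (i : Fin 3) :
    ev s (X i : T F) = s i := by
  simp [ev, X]

theorem ev_unique {B : Type v} [Ring B] [Algebra F B] (f g : T F →ₐ[F] B)
    (h : ∀ i, f (X i) = g (X i)) : f = g := by
  apply MonoidAlgebra.algHom_ext'
  · apply FreeMonoid.hom_eq
    intro i
    exact h i
  · exact Subsingleton.elim _ _

theorem coeff_one_mul (s t : T F) (hs : s.coeff 1 = 0) (ht : t.coeff 1 = 0) :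
    (s * t).coeff 1 = 0 := by
  obtain ⟨a, _, ha⟩ := exists_band_one s hs
  obtain ⟨b, _, hb⟩ := exists_band_one t ht
  have h := mem_band.1 (mul_mem_band ha hb) 1
  by_contra hne
  have h1 := h hne
  rw [FreeMonoid.length_one] at h1
  omega

theorem coeff_one_X (i : Fin 3) : (X i : T F).coeff 1 = 0 := by
  by_contra hne
  have h1 := mem_deg.1 (X_mem_deg (F := F) i) 1 hne
  rw [FreeMonoid.length_one] at h1
  omega

end Ev

section Abstract

/-- abstract two-sided ideal of nilpotent elements -/
structure NilIdeal {E : Type v} [Ring E] (R : Set E) : Prop where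
  zero : (0 : E) ∈ R
  add : ∀ a ∈ R, ∀ b ∈ R, a + b ∈ R
  mul_left : ∀ a, ∀ b ∈ R, a * b ∈ R
  mul_right : ∀ a, ∀ b ∈ R, b * a ∈ R
  nil : ∀ a ∈ R, IsNilpotent a

theorem NilIdeal.pow_sub {E : Type v} [Ring E] {R : Set E} (hR : NilIdeal R) {a b : E}
    (h : a - b ∈ R) (n : ℕ) : a ^ n - b ^ n ∈ R := by
  induction n with
  | zero => simpa using hR.zero
  | succ n ih =>
    have h1 : a ^ (n+1) - b ^ (n+1) = a ^ n * (a - b) + (a ^ n - b ^ n) * b := by
      rw [pow_succ, pow_succ]; noncomm_ring
    rw [h1]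
    exact hR.add _ (hR.mul_left _ _ h) _ (hR.mul_right _ _ ih)

variable {F : Type u} [Field F]

theorem NilIdeal.adjoin_nil {E : Type v} [Ring E] [Algebra F E] {R : Set E} (hR : NilIdeal R)
    {Γ : Type w} [Ring Γ] [Algebra F Γ] (φ : T F →ₐ[F] Γ)
    (hnil : ∀ t : T F, t.coeff 1 = 0 → IsNilpotent (φ t)) (lm : Γ →ₐ[F] E)
    (x : Fin 3 → E) (hx : ∀ i, x i = lm (φ (X i))) (z : E) (hz : z ∈ R) (a : E)
    (ha : a ∈ NonUnitalAlgebra.adjoin F (Set.range x ∪ {z})) : IsNilpotent a := by
  have h1 : ∃ t : T F, t.coeff 1 = 0 ∧ a - lm (φ t) ∈ R := by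
    induction ha using NonUnitalAlgebra.adjoin_induction with
    | mem a ha =>
      rcases ha with ⟨i, rfl⟩ | ha
      · refine ⟨X i, coeff_one_X i, ?_⟩
        rw [hx, sub_self]
        exact hR.zero
      · rw [Set.mem_singleton_iff] at ha
        subst ha
        refine ⟨0, rfl, ?_⟩
        rw [map_zero, map_zero, sub_zero]
        exact hz
    | add a b _ _ h1 h2 =>
      obtain ⟨s, hs1, hs2⟩ := h1
      obtain ⟨t, ht1, ht2⟩ := h2
      refine ⟨s + t, ?_, ?_⟩
      · rw [MonoidAlgebra.coeff_add, Finsupp.add_apply, hs1, ht1, add_zero]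
      · rw [map_add, map_add, add_sub_add_comm]
        exact hR.add _ hs2 _ ht2
    | zero =>
      refine ⟨0, rfl, ?_⟩
      rw [map_zero, map_zero, sub_zero]
      exact hR.zero
    | mul a b _ _ h1 h2 =>
      obtain ⟨s, hs1, hs2⟩ := h1
      obtain ⟨t, ht1, ht2⟩ := h2
      refine ⟨s * t, coeff_one_mul s t hs1 ht1, ?_⟩
      rw [map_mul, map_mul]
      have h3 : a * b - lm (φ s) * lm (φ t) = a * (b - lm (φ t)) + (a - lm (φ s)) * lm (φ t) := by
        noncomm_ring
      rw [h3]
      exact hR.add _ (hR.mul_left _ _ ht2) _ (hR.mul_right _ _ hs2)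
    | smul c a _ h1 =>
      obtain ⟨s, hs1, hs2⟩ := h1
      refine ⟨c • s, ?_, ?_⟩
      · rw [MonoidAlgebra.coeff_smul, Finsupp.smul_apply, hs1, smul_zero]
      · rw [map_smul, map_smul, ← smul_sub, ← smul_one_mul]
        exact hR.mul_left _ _ hs2
  obtain ⟨t, ht1, ht2⟩ := h1
  obtain ⟨n, hn⟩ := hnil t ht1
  have h2 := hR.pow_sub ht2 n
  rw [← map_pow, hn, map_zero, sub_zero] at h2
  obtain ⟨m, hm⟩ := hR.nil _ h2
  exact ⟨n * m, by rw [pow_mul, hm]⟩

end Abstract

section FRmod

variable {C : Type u} [CommRing C] {W : Type v} [AddCommGroup W] [Module C W]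

theorem nilIdeal_FR : NilIdeal (E := Module.End C W) (FR C W) where
  zero := FR_zero
  add _ ha _ hb := FR_add ha hb
  mul_left a _ hb := FR_mul_left a hb
  mul_right a _ hb := FR_mul_right a hb
  nil _ ha := FR_isNilpotent ha

end FRmod

section Diagonal

variable (F : Type u) [Field F] [Countable F]

theorem countable_adjoin {E : Type u} [Ring E] [Algebra F E] (s : Set E) (hs : s.Countable) :
    Countable (NonUnitalAlgebra.adjoin F s) := by
  have h1 : Countable (Algebra.adjoin F s) := by
    have := Algebra.cardinalMk_adjoin_le F s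
    rw [← Cardinal.mk_le_aleph0_iff]
    refine this.trans ?_
    refine sup_le (sup_le ?_ ?_) le_rfl
    · exact Cardinal.mk_le_aleph0
    · exact Cardinal.mk_le_aleph0_iff.mpr hs.to_subtype
  have h2 : NonUnitalAlgebra.adjoin F s ≤ (Algebra.adjoin F s).toNonUnitalSubalgebra :=
    NonUnitalAlgebra.adjoin_le (fun x hx => Algebra.subset_adjoin hx)
  exact Function.Injective.countable
    (f := fun a : NonUnitalAlgebra.adjoin F s => (⟨a.1, h2 a.2⟩ : Algebra.adjoin F s))
    (fun a b hab => by
      apply Subtype.ext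
      exact congrArg (fun t : Algebra.adjoin F s => (t : E)) hab)

/-- for every sequence of bounds there is a 4-generated nil algebra in which the elements
`u k (x) * z` have large nilpotency index; the polynomials `u k` do not depend on the bounds -/
theorem exists_algebra : ∃ u : ℕ → T F, ∀ N : ℕ → ℕ, (∀ k, 1 ≤ N k) →
    ∃ (E : Type u) (_ : Ring E) (_ : Algebra F E) (x : Fin 3 → E) (z : E),
      (∀ a ∈ NonUnitalAlgebra.adjoin F (Set.range x ∪ {z}), IsNilpotent a) ∧
      ∀ k m, m + 1 < N k → (ev x (u k) * z) ^ m ≠ 0 := by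
  obtain ⟨Γ, _, _, φ, hφ, hnil, u, hu, hli⟩ := exists_nil_algebra F
  refine ⟨u, ?_⟩
  intro N hN
  obtain ⟨L, hL1, hL2⟩ := exists_L N (fun k => φ (u k)) hli
  let lm := lam F Γ N
  let x : Fin 3 → Module.End (Cf F N) (Wm F Γ N) := fun i => lm (φ (X i))
  let z : Module.End (Cf F N) (Wm F Γ N) := zop N L
  have hev : ev x = lm.comp φ := ev_unique (ev x) (lm.comp φ) (fun i => by rw [ev_X]; rfl)
  refine ⟨Module.End (Cf F N) (Wm F Γ N), inferInstance, inferInstance, x, z, ?_, ?_⟩
  · intro a ha
    exact nilIdeal_FR.adjoin_nil φ hnil lm x (fun i => rfl) z (zop_mem_FR N L hL2) a ha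
  · intro k m hkm
    rw [hev]
    apply theta_pow_ne
    have h1 := hL1 k
    have h2 : L (φ (u k)) ^ (m+1) ≠ 0 := by
      rw [h1]
      exact vg_pow_ne F N hN k (m+1) hkm
    exact h2

theorem diagonal (U : Type v) [NonUnitalRing U] [Module F U] [IsScalarTower F U U]
    [SMulCommClass F U U] [Countable U]
    (halg : ∀ a : U, Module.Finite F (NonUnitalAlgebra.adjoin F {a})) :
    ∃ (E : Type u) (_ : Ring E) (_ : Algebra F E) (g : Fin 4 → E),
      Countable (NonUnitalAlgebra.adjoin F (Set.range g)) ∧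
      (∀ a : NonUnitalAlgebra.adjoin F (Set.range g), IsNilpotent (a : E)) ∧
      ¬ ∃ f : U →ₙₐ[F] NonUnitalAlgebra.adjoin F (Set.range g), Function.Surjective f := by
  classical
  obtain ⟨u, hu⟩ := exists_algebra F
  obtain ⟨e, he⟩ := exists_surjective_nat (Fin 4 → U)
  let P : (Fin 4 → U) → ℕ → Unitization F U := fun s k =>
    ev (fun i : Fin 3 => (Unitization.inr (s i.castSucc) : Unitization F U)) (u k) *
      Unitization.inr (s 3)
  have hP : ∀ s k, ∃ a : U, P s k = Unitization.inr a := by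
    intro s k
    refine ⟨(P s k).snd, ?_⟩
    apply Unitization.ext
    · simp [P]
    · simp
  have hf : ∀ k, ∃ f : Polynomial F, f ≠ 0 ∧ Polynomial.aeval (P (e k) k) f = 0 := by
    intro k
    obtain ⟨a, ha⟩ := hP (e k) k
    rw [ha]
    exact exists_poly a (halg a)
  choose f hf1 hf2 using hf
  obtain ⟨E, _, _, x, z, hnil, hne⟩ := hu (fun k => (f k).natDegree + 2) (fun k => by omega)
  have hg : Set.range (Fin.snoc (α := fun _ => E) x z : Fin 4 → E) = Set.range x ∪ {z} := by
    ext y
    simp only [Set.mem_range, Set.mem_union, Set.mem_singleton_iff]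
    constructor
    · rintro ⟨i, rfl⟩
      refine Fin.lastCases ?_ (fun j => ?_) i
      · right; rw [Fin.snoc_last]
      · left; exact ⟨j, by rw [Fin.snoc_castSucc]⟩
    · rintro (⟨i, rfl⟩ | rfl)
      · exact ⟨i.castSucc, by rw [Fin.snoc_castSucc]⟩
      · exact ⟨Fin.last 3, by rw [Fin.snoc_last]⟩
  rw [← hg] at hnil
  let A : NonUnitalSubalgebra F E :=
    NonUnitalAlgebra.adjoin F (Set.range (Fin.snoc (α := fun _ => E) x z : Fin 4 → E))
  refine ⟨E, inferInstance, inferInstance, Fin.snoc (α := fun _ => E) x z, ?_,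
    fun a => hnil a a.2, ?_⟩
  · exact countable_adjoin F _ (Set.finite_range _).countable
  · rintro ⟨ψ, hψ⟩
    have hx : ∀ i, x i ∈ A := fun i => NonUnitalAlgebra.subset_adjoin F
      (by rw [hg]; exact Or.inl ⟨i, rfl⟩)
    have hz : z ∈ A := NonUnitalAlgebra.subset_adjoin F (by rw [hg]; exact Or.inr rfl)
    have h1 : ∃ s : Fin 4 → U, (∀ i : Fin 3, (ψ (s i.castSucc) : E) = x i) ∧
        (ψ (s 3) : E) = z := by
      choose y hy using fun i => hψ ⟨x i, hx i⟩
      obtain ⟨w, hw⟩ := hψ ⟨z, hz⟩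
      refine ⟨Fin.snoc y w, ?_, ?_⟩
      · intro i
        rw [Fin.snoc_castSucc, hy]
      · have : (3 : Fin 4) = Fin.last 3 := rfl
        rw [this, Fin.snoc_last, hw]
    obtain ⟨s, hs1, hs2⟩ := h1
    obtain ⟨k, rfl⟩ := he s
    let Ψ : Unitization F U →ₐ[F] E :=
      Unitization.lift ((NonUnitalSubalgebraClass.subtype A).comp ψ)
    have hΨ : ∀ a : U, Ψ (Unitization.inr a) = (ψ a : E) := by
      intro a; simp [Ψ]
    have h2 : Ψ (P (e k) k) = ev x (u k) * z := by
      simp only [P]
      rw [map_mul, hΨ, hs2]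
      congr 1
      have h3 : Ψ.comp (ev (fun i : Fin 3 => (Unitization.inr (e k i.castSucc) : Unitization F U)))
          = ev x := by
        apply ev_unique
        intro i
        rw [AlgHom.comp_apply, ev_X, ev_X, hΨ, hs1]
      rw [← h3]
      rfl
    have h3 := congrArg Ψ (hf2 k)
    rw [← Polynomial.aeval_algHom_apply, h2, map_zero] at h3
    have h4 : IsNilpotent (ev x (u k) * z) := by
      rw [← h2]
      obtain ⟨a, ha⟩ := hP (e k) k
      rw [ha, hΨ]
      exact hnil _ (ψ a).2
    have h5 := pow_natDegree_eq_zero _ h4 (f k) (hf1 k) h3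
    exact hne k (f k).natDegree (by omega) h5

end Diagonal

end Pool.Agent.MP_4977d9_al
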